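import Pool.Agent.Helper65.SG.Goals
import Pool.Agent.Helper29.BL.PS

/-!
Packet NQA of project SG (MP_a41896_nt), module T: a crude bound for `P^0` in every norm frame in
which all coordinates have norm at most one.
-/

set_option autoImplicit false

open MvPolynomial

namespace Pool.Agent.Helper90.SGT

open WeierstrassCurve Height
open Pool.Agent.Helper29.BL Pool.Agent.Helper92.Ru Pool.Agent.Helper42.SG Pool.Agent.Helper65.SG

section frame

variable {K : Type} [Field K] {v : AbsoluteValue K ℝ} {A : Type} [CommRing A] [Algebra K A]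
  {N : A → ℝ → Prop}

/-- the norm of `f` is at most `a T`, where the factor `a` is dropped at nonarchimedean places -/
def Mb (v : AbsoluteValue K ℝ) (N : A → ℝ → Prop) (f : A) (a T : ℝ) : Prop := N f (cst v a * T)

lemma n_one (hN : NFr v N) : N 1 1 := by
  have h := hN.const 1
  rwa [map_one, map_one] at h

lemma n_zero (hN : NFr v N) : N 0 0 := by
  have h := hN.const 0
  rwa [map_zero, map_zero] at h

lemma n_neg (hN : NFr v N) {f : A} {T : ℝ} (h : N f T) : N (-f) T := by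
  have h1 := hN.mul _ _ _ _ (hN.const (-1)) h
  rw [map_neg, map_one, v.map_neg, map_one, neg_one_mul, one_mul] at h1
  exact h1

lemma n_pow (hN : NFr v N) {f : A} {T : ℝ} (h : N f T) (n : ℕ) : N (f ^ n) (T ^ n) := by
  induction n with
  | zero => rw [pow_zero, pow_zero]; exact n_one hN
  | succ n ih => rw [pow_succ, pow_succ]; exact hN.mul _ _ _ _ ih h

lemma n_prod (hN : NFr v N) {ι : Type} (s : Finset ι) (f : ι → A) (T : ι → ℝ)
    (h : ∀ i ∈ s, N (f i) (T i)) : N (∏ i ∈ s, f i) (∏ i ∈ s, T i) := by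
  classical
  induction s using Finset.induction_on with
  | empty => rw [Finset.prod_empty, Finset.prod_empty]; exact n_one hN
  | insert a s ha ih =>
    rw [Finset.prod_insert ha, Finset.prod_insert ha]
    exact hN.mul _ _ _ _ (h a (Finset.mem_insert_self a s))
      (ih fun i hi => h i (Finset.mem_insert_of_mem hi))

lemma mb_of (hN : NFr v N) {f : A} {T : ℝ} (h : N f T) : Mb v N f 1 T := by
  unfold Mb cst
  split_ifs <;> rwa [one_mul]

lemma mb_zero (hN : NFr v N) {T : ℝ} (hT : 0 ≤ T) : Mb v N 0 0 T := by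
  unfold Mb cst
  split_ifs
  · exact hN.mono _ _ _ (n_zero hN) (by rwa [one_mul])
  · rw [zero_mul]; exact n_zero hN

lemma mb_add (hN : NFr v N) {f g : A} {a b T : ℝ} (hf : Mb v N f a T) (hg : Mb v N g b T) :
    Mb v N (f + g) (a + b) T := by
  unfold Mb cst at *
  split_ifs at * with hv
  · have h := hN.max hv _ _ _ _ hf hg
    rwa [max_self] at h
  · have h := hN.add _ _ _ _ hf hg
    rwa [← add_mul] at h

lemma mb_neg (hN : NFr v N) {f : A} {a T : ℝ} (hf : Mb v N f a T) : Mb v N (-f) a T :=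
  n_neg hN hf

lemma mb_sub (hN : NFr v N) {f g : A} {a b T : ℝ} (hf : Mb v N f a T) (hg : Mb v N g b T) :
    Mb v N (f - g) (a + b) T := by
  rw [sub_eq_add_neg]
  exact mb_add hN hf (mb_neg hN hg)

lemma mb_mul (hN : NFr v N) {f g : A} {a b T S : ℝ} (hf : Mb v N f a T) (hg : Mb v N g b S) :
    Mb v N (f * g) (a * b) (T * S) := by
  unfold Mb at *
  have h := hN.mul _ _ _ _ hf hg
  have e : cst v (a * b) * (T * S) = cst v a * T * (cst v b * S) := by
    rw [cst_mul]; ring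
  rw [e]
  exact h

lemma mb_mono (hN : NFr v N) {f : A} {a b T S : ℝ} (hf : Mb v N f a T) (hab : a ≤ b) (hb : 0 ≤ b)
    (hT : 0 ≤ T) (hTS : T ≤ S) : Mb v N f b S := by
  unfold Mb at *
  refine hN.mono _ _ _ hf ?_
  refine mul_le_mul (cst_mono v hab) hTS hT ?_
  unfold cst
  split_ifs
  · exact zero_le_one
  · exact hb

lemma mb_nat (hN : NFr v N) (k : ℕ) : Mb v N (k : A) k 1 := by
  induction k with
  | zero =>
    rw [Nat.cast_zero, Nat.cast_zero]
    exact mb_zero hN zero_le_one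
  | succ k ih =>
    rw [Nat.cast_succ, Nat.cast_succ]
    exact mb_add hN ih (mb_of hN (n_one hN))

lemma mb_sum (hN : NFr v N) {ι : Type} (s : Finset ι) (f : ι → A) (T : ℝ) (hT : 0 ≤ T)
    (h : ∀ i ∈ s, N (f i) T) : Mb v N (∑ i ∈ s, f i) s.card T := by
  classical
  induction s using Finset.induction_on with
  | empty =>
    rw [Finset.sum_empty, Finset.card_empty, Nat.cast_zero]
    exact mb_zero hN hT
  | insert a s ha ih =>
    rw [Finset.sum_insert ha, Finset.card_insert_of_notMem ha, Nat.cast_succ, add_comm (s.card : ℝ)]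
    exact mb_add hN (mb_of hN (h a (Finset.mem_insert_self a s)))
      (ih fun i hi => h i (Finset.mem_insert_of_mem hi))

/-- one term of a form in `t`, `z` -/
lemma term (hN : NFr v N) {t z b : A} {T Γ : ℝ} (hT : 1 ≤ T) (hΓ : 1 ≤ Γ) (ht : N t T)
    (hz : N z T) (hb : N b Γ) (k i j d : ℕ) (hd : i + j = d) :
    Mb v N ((k : A) * b * (t ^ i * z ^ j)) k (Γ * T ^ d) := by
  have h1 := mb_mul hN (mb_mul hN (mb_nat hN k) (mb_of hN hb))
    (mb_of hN (hN.mul _ _ _ _ (n_pow hN ht i) (n_pow hN hz j)))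
  have e : (1 * Γ * (T ^ i * T ^ j) : ℝ) = Γ * T ^ d := by
    rw [one_mul, ← pow_add, hd]
  rw [mul_one, mul_one, e] at h1
  exact h1

end frame

/-- bounds for the coefficients -/
structure Gd {K : Type} [Field K] {A : Type} [CommRing A] [Algebra K A] (N : A → ℝ → Prop)
    (W : WeierstrassCurve A) (Γ : ℝ) : Prop where
  one : N 1 Γ
  b2 : N W.b₂ Γ
  b4 : N W.b₄ Γ
  b6 : N W.b₆ Γ
  b8 : N W.b₈ Γ
  b28 : N (W.b₂ * W.b₈) Γ
  b46 : N (W.b₄ * W.b₆) Γ
  b48 : N (W.b₄ * W.b₈) Γ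
  b66 : N (W.b₆ ^ 2) Γ

section forms

variable {K : Type} [Field K] {v : AbsoluteValue K ℝ} {A : Type} [CommRing A] [Algebra K A]
  {N : A → ℝ → Prop} {W : WeierstrassCurve A} {Γ : ℝ}

lemma ah_bd (hN : NFr v N) (hW : Gd (K := K) N W Γ) (hΓ : 1 ≤ Γ) {t z : A} {T : ℝ} (hT : 1 ≤ T)
    (ht : N t T) (hz : N z T) : N (Ah W t z) (cst v 40 * Γ * T ^ 4) := by
  have h := mb_sub hN (mb_sub hN (mb_sub hN
    (term hN hT hΓ ht hz hW.one 1 4 0 4 rfl)
    (term hN hT hΓ ht hz hW.b4 1 2 2 4 rfl))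
    (term hN hT hΓ ht hz hW.b6 2 1 3 4 rfl))
    (term hN hT hΓ ht hz hW.b8 1 0 4 4 rfl)
  have e : Ah W t z = ((1 : ℕ) : A) * 1 * (t ^ 4 * z ^ 0) - ((1 : ℕ) : A) * W.b₄ * (t ^ 2 * z ^ 2) -
      ((2 : ℕ) : A) * W.b₆ * (t ^ 1 * z ^ 3) - ((1 : ℕ) : A) * W.b₈ * (t ^ 0 * z ^ 4) := by
    unfold Ah
    push_cast
    ring
  rw [← e] at h
  have h2 := mb_mono hN h (b := 40) (by norm_num) (by norm_num) (by positivity) le_rfl
  unfold Mb at h2
  rwa [← mul_assoc] at h2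

lemma bh_bd (hN : NFr v N) (hW : Gd (K := K) N W Γ) (hΓ : 1 ≤ Γ) {t z : A} {T : ℝ} (hT : 1 ≤ T)
    (ht : N t T) (hz : N z T) : N (Bh W t z) (cst v 40 * Γ * T ^ 4) := by
  have h := mb_add hN (mb_add hN (mb_add hN
    (term hN hT hΓ ht hz hW.one 4 3 1 4 rfl)
    (term hN hT hΓ ht hz hW.b2 1 2 2 4 rfl))
    (term hN hT hΓ ht hz hW.b4 2 1 3 4 rfl))
    (term hN hT hΓ ht hz hW.b6 1 0 4 4 rfl)
  have e : Bh W t z = ((4 : ℕ) : A) * 1 * (t ^ 3 * z ^ 1) + ((1 : ℕ) : A) * W.b₂ * (t ^ 2 * z ^ 2) +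
      ((2 : ℕ) : A) * W.b₄ * (t ^ 1 * z ^ 3) + ((1 : ℕ) : A) * W.b₆ * (t ^ 0 * z ^ 4) := by
    unfold Bh
    push_cast
    ring
  rw [← e] at h
  have h2 := mb_mono hN h (b := 40) (by norm_num) (by norm_num) (by positivity) le_rfl
  unfold Mb at h2
  rwa [← mul_assoc] at h2

lemma ch_bd (hN : NFr v N) (hW : Gd (K := K) N W Γ) (hΓ : 1 ≤ Γ) {t z : A} {T : ℝ} (hT : 1 ≤ T)
    (ht : N t T) (hz : N z T) : N (Ch W t z) (cst v 40 * Γ * T ^ 6) := by
  have h := mb_sub hN (mb_add hN (mb_sub hN (mb_add hN (mb_add hN (mb_add hN (mb_add hN (mb_add hN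
    (term hN hT hΓ ht hz hW.one 2 6 0 6 rfl)
    (term hN hT hΓ ht hz hW.b2 1 5 1 6 rfl))
    (term hN hT hΓ ht hz hW.b4 5 4 2 6 rfl))
    (term hN hT hΓ ht hz hW.b6 10 3 3 6 rfl))
    (term hN hT hΓ ht hz hW.b8 10 2 4 6 rfl))
    (term hN hT hΓ ht hz hW.b28 1 1 5 6 rfl))
    (term hN hT hΓ ht hz hW.b46 1 1 5 6 rfl))
    (term hN hT hΓ ht hz hW.b48 1 0 6 6 rfl))
    (term hN hT hΓ ht hz hW.b66 1 0 6 6 rfl)
  have e : Ch W t z = ((2 : ℕ) : A) * 1 * (t ^ 6 * z ^ 0) + ((1 : ℕ) : A) * W.b₂ * (t ^ 5 * z ^ 1) +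
      ((5 : ℕ) : A) * W.b₄ * (t ^ 4 * z ^ 2) + ((10 : ℕ) : A) * W.b₆ * (t ^ 3 * z ^ 3) +
      ((10 : ℕ) : A) * W.b₈ * (t ^ 2 * z ^ 4) + ((1 : ℕ) : A) * (W.b₂ * W.b₈) * (t ^ 1 * z ^ 5) -
      ((1 : ℕ) : A) * (W.b₄ * W.b₆) * (t ^ 1 * z ^ 5) +
      ((1 : ℕ) : A) * (W.b₄ * W.b₈) * (t ^ 0 * z ^ 6) -
      ((1 : ℕ) : A) * (W.b₆ ^ 2) * (t ^ 0 * z ^ 6) := by
    unfold Ch
    push_cast
    ring
  rw [← e] at h
  have h2 := mb_mono hN h (b := 40) (by norm_num) (by norm_num) (by positivity) le_rfl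
  unfold Mb at h2
  rwa [← mul_assoc] at h2

/-- exponents -/
def te : ℕ → ℕ
  | 0 => 0
  | e + 1 => 4 * te e + 1

lemma te_eq (e : ℕ) : 3 * te e + 1 = 4 ^ e := by
  induction e with
  | zero => rfl
  | succ e ih => rw [te, pow_succ, ← ih]; ring

lemma te_le (e : ℕ) : 2 * te e + 1 ≤ 4 ^ e := by
  rw [← te_eq]
  omega

lemma ph_bd (hN : NFr v N) (hW : Gd (K := K) N W Γ) (hΓ : 1 ≤ Γ) {x : A} (hx : N x 1) (e : ℕ) :
    N (Ph W e x).1 ((cst v 40 * Γ) ^ te e) ∧ N (Ph W e x).2 ((cst v 40 * Γ) ^ te e) := by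
  have hc : 1 ≤ cst v 40 * Γ := one_le_mul_of_one_le_of_one_le (one_le_cst v (by norm_num)) hΓ
  induction e with
  | zero =>
    rw [te, pow_zero]
    exact ⟨hx, n_one hN⟩
  | succ e ih =>
    have hT : 1 ≤ (cst v 40 * Γ) ^ te e := one_le_pow₀ hc
    have e1 : cst v 40 * Γ * ((cst v 40 * Γ) ^ te e) ^ 4 = (cst v 40 * Γ) ^ te (e + 1) := by
      rw [te, ← pow_mul, pow_succ]
      ring
    rw [← e1]
    exact ⟨ah_bd hN hW hΓ hT ih.1 ih.2, bh_bd hN hW hΓ hT ih.1 ih.2⟩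

lemma rr_bd (hN : NFr v N) (hW : Gd (K := K) N W Γ) (hΓ : 1 ≤ Γ) {x : A} (hx : N x 1) (e : ℕ) :
    N (Rr W e x) ((cst v 40 * Γ) ^ (2 * te e)) := by
  have hc : 1 ≤ cst v 40 * Γ := one_le_mul_of_one_le_of_one_le (one_le_cst v (by norm_num)) hΓ
  induction e with
  | zero =>
    rw [te, mul_zero, pow_zero]
    exact n_one hN
  | succ e ih =>
    have hT : 1 ≤ (cst v 40 * Γ) ^ te e := one_le_pow₀ hc
    obtain ⟨h1, h2⟩ := ph_bd hN hW hΓ hx e
    have h3 := hN.mul _ _ _ _ ih (ch_bd hN hW hΓ hT h1 h2)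
    refine hN.mono _ _ _ h3 ?_
    calc (cst v 40 * Γ) ^ (2 * te e) * (cst v 40 * Γ * ((cst v 40 * Γ) ^ te e) ^ 6)
        = (cst v 40 * Γ) ^ (2 * te e + (1 + te e * 6)) := by
          rw [← pow_mul, pow_add _ (2 * te e), pow_add _ 1, pow_one]
      _ ≤ (cst v 40 * Γ) ^ (2 * te (e + 1)) := by
          refine pow_le_pow_right₀ hc ?_
          rw [te]
          omega

lemma law_bd (hN : NFr v N) (hW : Gd (K := K) N W Γ) (hΓ : 1 ≤ Γ) {x c η : A} (hx : N x 1)
    (hc : N c 1) (hη : N η 1) (e : ℕ) :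
    N (law W e false x c η).1 ((cst v 40 * Γ) ^ (4 ^ e)) ∧
      N (law W e false x c η).2 ((cst v 40 * Γ) ^ (4 ^ e)) := by
  have hc0 : 1 ≤ cst v 40 * Γ := one_le_mul_of_one_le_of_one_le (one_le_cst v (by norm_num)) hΓ
  obtain ⟨h1, h2⟩ := ph_bd hN hW hΓ hx e
  have h3 := rr_bd hN hW hΓ hx e
  obtain ⟨t, ht⟩ : ∃ t, t = (Ph W e x).1 := ⟨_, rfl⟩
  obtain ⟨z, hz⟩ : ∃ z, z = (Ph W e x).2 := ⟨_, rfl⟩
  obtain ⟨r, hr⟩ : ∃ r, r = Rr W e x := ⟨_, rfl⟩
  obtain ⟨T, hT⟩ : ∃ T, T = (cst v 40 * Γ) ^ te e := ⟨_, rfl⟩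
  have hT2 : (cst v 40 * Γ) ^ (2 * te e) = T ^ 2 := by
    rw [hT, ← pow_mul, mul_comm (te e) 2]
  rw [← ht, ← hT] at h1
  rw [← hz, ← hT] at h2
  rw [← hr, hT2] at h3
  have hT1 : 1 ≤ T := hT ▸ one_le_pow₀ hc0
  have hT0 : 0 ≤ T := by linarith
  have hfin : cst v 40 * (Γ * T ^ 2) ≤ (cst v 40 * Γ) ^ (4 ^ e) := by
    calc cst v 40 * (Γ * T ^ 2) = (cst v 40 * Γ) ^ (2 * te e + 1) := by
          rw [pow_succ (cst v 40 * Γ) (2 * te e), hT2]; ring
      _ ≤ (cst v 40 * Γ) ^ (4 ^ e) := pow_le_pow_right₀ hc0 (te_le e)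
  have hTT : T * T ≤ Γ * T ^ 2 := by nlinarith [mul_nonneg hT0 hT0]
  -- auxiliary bounds
  have mt := mb_of hN h1
  have mz := mb_of hN h2
  have mc := mb_of hN hc
  have mcz : Mb v N (c * z) 1 T := by
    have := mb_mul hN mc mz
    rwa [mul_one, one_mul] at this
  have mtc : Mb v N (t * c) 1 T := by
    have := mb_mul hN mt mc
    rwa [mul_one, mul_one] at this
  have m2 : Mb v N (2 : A) 2 1 := by
    have := mb_nat hN 2
    push_cast at this
    exact this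
  have msub := mb_sub hN mt mcz
  have madd := mb_add hN mt mcz
  refine ⟨?_, ?_⟩
  · show N (2 * Uh c (Ph W e x).1 (Ph W e x).2) _
    rw [← ht, ← hz]
    have h4 := mb_mul hN m2 (mb_mul hN msub msub)
    have e4 : 2 * Uh c t z = 2 * ((t - c * z) * (t - c * z)) := by
      unfold Uh; ring
    rw [e4]
    have h5 := mb_mono hN h4 (b := 40) (S := Γ * T ^ 2) (by norm_num) (by norm_num)
      (by positivity) (by rw [one_mul]; exact hTT)
    exact hN.mono _ _ _ h5 hfin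
  · show N (Th W c (Ph W e x).1 (Ph W e x).2 + η * Rr W e x) _
    rw [← ht, ← hz, ← hr]
    have hTT' : T * T = T ^ 2 := (pow_two T).symm
    have a1 := mb_mono hN (mb_mul hN (mb_mul hN m2 madd) mtc) (b := 4) (S := Γ * T ^ 2)
      (by norm_num) (by norm_num) (by positivity) (by rw [one_mul]; exact hTT)
    have a2 := mb_mono hN (mb_mul hN (mb_of hN hW.b2) (mb_mul hN mtc mz)) (b := 1)
      (S := Γ * T ^ 2) (by norm_num) (by norm_num) (by positivity) (by rw [hTT'])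
    have a3 := mb_mono hN (mb_mul hN (mb_of hN hW.b4) (mb_mul hN madd mz)) (b := 2)
      (S := Γ * T ^ 2) (by norm_num) (by norm_num) (by positivity) (by rw [hTT'])
    have a4 := mb_mono hN (mb_mul hN (mb_of hN hW.b6) (mb_mul hN mz mz)) (b := 1)
      (S := Γ * T ^ 2) (by norm_num) (by norm_num) (by positivity) (by rw [hTT'])
    have a5 := mb_mono hN (mb_mul hN (mb_of hN hη) (mb_of hN h3)) (b := 1)
      (S := Γ * T ^ 2) (by norm_num) (by norm_num) (by positivity)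
      (by nlinarith [mul_nonneg hT0 hT0])
    have h4 := mb_add hN (mb_add hN (mb_add hN (mb_add hN a1 a2) a3) a4) a5
    have e4 : Th W c t z + η * r = 2 * (t + c * z) * (t * c) + W.b₂ * (t * c * z) +
        W.b₄ * ((t + c * z) * z) + W.b₆ * (z * z) + η * r := by
      unfold Th; ring
    rw [e4]
    have h5 := mb_mono hN h4 (b := 40) (S := Γ * T ^ 2) (by norm_num) (by norm_num)
      (by positivity) le_rfl
    exact hN.mono _ _ _ h5 hfin

end forms

lemma gd_map {K : Type} [Field K] {v : AbsoluteValue K ℝ} {A : Type} [CommRing A] [Algebra K A]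
    {N : A → ℝ → Prop} (hN : NFr v N) (W : Affine K) (β : ℝ) (hβ : bet W v ≤ β) :
    Gd (K := K) N (W.map (algebraMap K A)) (β ^ 2) := by
  have h1 : 1 ≤ β := (one_le_bet W v).trans hβ
  have hsq : β ≤ β ^ 2 := by nlinarith
  have k2 : v W.b₂ ≤ β := le_trans (by unfold bet; simp) hβ
  have k4 : v W.b₄ ≤ β := le_trans (by unfold bet; simp) hβ
  have k6 : v W.b₆ ≤ β := le_trans (by unfold bet; simp) hβ
  have k8 : v W.b₈ ≤ β := le_trans (by unfold bet; simp) hβ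
  have n2 : N (W.map (algebraMap K A)).b₂ β := by
    rw [WeierstrassCurve.map_b₂]; exact hN.mono _ _ _ (hN.const _) k2
  have n4 : N (W.map (algebraMap K A)).b₄ β := by
    rw [WeierstrassCurve.map_b₄]; exact hN.mono _ _ _ (hN.const _) k4
  have n6 : N (W.map (algebraMap K A)).b₆ β := by
    rw [WeierstrassCurve.map_b₆]; exact hN.mono _ _ _ (hN.const _) k6
  have n8 : N (W.map (algebraMap K A)).b₈ β := by
    rw [WeierstrassCurve.map_b₈]; exact hN.mono _ _ _ (hN.const _) k8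
  refine ⟨hN.mono _ _ _ (n_one hN) (by nlinarith), hN.mono _ _ _ n2 hsq, hN.mono _ _ _ n4 hsq,
    hN.mono _ _ _ n6 hsq, hN.mono _ _ _ n8 hsq, ?_, ?_, ?_, n_pow hN n6 2⟩
  · rw [pow_two]; exact hN.mul _ _ _ _ n2 n8
  · rw [pow_two]; exact hN.mul _ _ _ _ n4 n6
  · rw [pow_two]; exact hN.mul _ _ _ _ n4 n8

lemma sum_half (n : ℕ) (f : ℕ → ℕ) :
    ∑ h : Fin (2 * n), f (h.val / 2) = 2 * ∑ j ∈ Finset.range n, f j := by
  rw [Fin.sum_univ_eq_sum_range (fun h => f (h / 2)) (2 * n)]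
  induction n with
  | zero => simp
  | succ n ih =>
    rw [show 2 * (n + 1) = 2 * n + 1 + 1 by ring, Finset.sum_range_succ, Finset.sum_range_succ, ih,
      Finset.sum_range_succ, show 2 * n / 2 = n by omega, show (2 * n + 1) / 2 = n by omega]
    ring

lemma card_idx (n M δ : ℕ) (hn : 1 ≤ n) (e : ℕ → ℕ) :
    Fintype.card (Idx n M δ e) ≤ (16 * ((M + 1) ^ (2 * n) * (δ + 1) ^ 2)) ^ sq n e := by
  have hsq : 1 ≤ sq n e := by
    unfold Pool.Agent.Helper42.SG.sq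
    calc 1 ≤ 4 ^ e 0 := Nat.one_le_pow _ _ (by norm_num)
      _ ≤ _ := Finset.single_le_sum (f := fun j => 4 ^ e j) (fun _ _ => Nat.zero_le _)
        (Finset.mem_range.2 (by omega))
  have h1 : Fintype.card (Idx n M δ e) =
      (∏ h : Fin (2 * n), 4 ^ e (h.val / 2)) * ((M + 1) ^ (2 * n) * δ ^ 2) := by
    simp only [Idx, Fintype.card_prod, Fintype.card_pi, Fintype.card_fin, Finset.prod_mul_distrib,
      Finset.prod_const, Finset.card_univ]
    ring
  have h2 : (∏ h : Fin (2 * n), 4 ^ e (h.val / 2)) ≤ 16 ^ sq n e := by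
    calc (∏ h : Fin (2 * n), 4 ^ e (h.val / 2)) = 4 ^ ∑ h : Fin (2 * n), e (h.val / 2) := by
          rw [Finset.prod_pow_eq_pow_sum]
      _ = 4 ^ (2 * ∑ j ∈ Finset.range n, e j) := by rw [sum_half n e]
      _ = 16 ^ ∑ j ∈ Finset.range n, e j := by rw [pow_mul]; norm_num
      _ ≤ 16 ^ sq n e := by
          refine Nat.pow_le_pow_right (by norm_num) ?_
          unfold Pool.Agent.Helper42.SG.sq
          exact Finset.sum_le_sum fun j _ => (Nat.lt_pow_self (by norm_num)).le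
  rw [h1, mul_pow]
  refine Nat.mul_le_mul h2 ?_
  calc (M + 1) ^ (2 * n) * δ ^ 2 ≤ (M + 1) ^ (2 * n) * (δ + 1) ^ 2 :=
        Nat.mul_le_mul_left _ (Nat.pow_le_pow_left (Nat.le_succ δ) 2)
    _ ≤ ((M + 1) ^ (2 * n) * (δ + 1) ^ 2) ^ sq n e := Nat.le_self_pow (by omega) _

theorem t_NQA : Pool.Agent.Helper65.SG.NQA := by
  intro K _ _ W n M δ hn
  set D : ℕ := 16 * ((M + 1) ^ (2 * n) * (δ + 1) ^ 2) with hD
  have hD1 : 1 ≤ D := by
    rw [hD]
    exact Nat.mul_pos (by norm_num) (Nat.mul_pos (by positivity) (by positivity))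
  have hD1' : (1 : ℝ) ≤ (D : ℝ) := by exact_mod_cast hD1
  refine ⟨fun v => cst v D * (cst v 40 * (bet (W 0) v * bet (W 1) v) ^ 2) ^ (2 * M), ?_, ?_⟩
  · have hpos : ∀ v : AbsoluteValue K ℝ, 0 < bet (W 0) v * bet (W 1) v := fun v =>
      mul_pos (bet_pos _ v) (bet_pos _ v)
    constructor
    · intro v
      refine one_le_mul_of_one_le_of_one_le (one_le_cst v hD1') (one_le_pow₀ ?_)
      refine one_le_mul_of_one_le_of_one_le (one_le_cst v (by norm_num)) (one_le_pow₀ ?_)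
      exact one_le_mul_of_one_le_of_one_le (one_le_bet _ v) (one_le_bet _ v)
    · have e : (fun v : AbsoluteValue K ℝ =>
          Real.log (cst v D * (cst v 40 * (bet (W 0) v * bet (W 1) v) ^ 2) ^ (2 * M))) =
          fun v => Real.log (cst v D) + ((2 * M : ℕ) : ℝ) * (Real.log (cst v 40) +
            ((2 : ℕ) : ℝ) * (Real.log (bet (W 0) v) + Real.log (bet (W 1) v))) := by
        funext v
        have p1 : cst v (D : ℝ) ≠ 0 := (cst_pos v hD1').ne'
        have p2 : cst v (40 : ℝ) ≠ 0 := (cst_pos v (by norm_num)).ne'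
        have p3 : (bet (W 0) v * bet (W 1) v) ^ 2 ≠ 0 := (pow_pos (hpos v) 2).ne'
        rw [Real.log_mul p1 (pow_ne_zero _ (mul_ne_zero p2 p3)), Real.log_pow,
          Real.log_mul p2 p3, Real.log_pow, Real.log_mul (bet_pos _ v).ne' (bet_pos _ v).ne']
      rw [e]
      exact (FS_log_cst _).add (((FS_log_cst _).add (((FS_log_bet _).add
        (FS_log_bet _)).const_mul _)).const_mul _)
  · intro e c v s A _ _ N X Ψ hN hs hc hX hΨ
    obtain ⟨Γ, hΓ⟩ : ∃ Γ, Γ = (bet (W 0) v * bet (W 1) v) ^ 2 := ⟨_, rfl⟩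
    have b0 := one_le_bet (W 0) v
    have b1 := one_le_bet (W 1) v
    have hΓ1 : 1 ≤ Γ := by
      rw [hΓ]
      exact one_le_pow₀ (one_le_mul_of_one_le_of_one_le b0 b1)
    have hc0 : 1 ≤ cst v 40 * Γ := one_le_mul_of_one_le_of_one_le (one_le_cst v (by norm_num)) hΓ1
    have hG : ∀ h : ℕ, Gd (K := K) N (mapW A W (h % 2)) Γ := by
      intro h
      have hle : bet (W (h % 2)) v ≤ bet (W 0) v * bet (W 1) v := by
        rcases Nat.mod_two_eq_zero_or_one h with h0 | h0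
        · rw [h0]; nlinarith
        · rw [h0]; nlinarith
      rw [hΓ]
      exact gd_map hN (W (h % 2)) _ hle
    have hlaw : ∀ h < 2 * n, N (lawV (mapW A W) n e (fun _ => false) X Ψ h).1
          ((cst v 40 * Γ) ^ (4 ^ e (h / 2))) ∧
        N (lawV (mapW A W) n e (fun _ => false) X Ψ h).2 ((cst v 40 * Γ) ^ (4 ^ e (h / 2))) := by
      intro h hh
      have hm : h % 2 < 2 := Nat.mod_lt _ (by norm_num)
      have hη : N (Ψ h * Ψ (2 * n + h % 2)) 1 := by
        have := hN.mul _ _ _ _ (hΨ h (by omega)) (hΨ (2 * n + h % 2) (by omega))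
        rwa [mul_one] at this
      exact law_bd hN (hG h) hΓ1 (hX h (by omega)) (hX (2 * n + h % 2) (by omega)) hη (e (h / 2))
    have hterm : ∀ α : Idx n M δ e, N (algebraMap K A (c α) *
        (∏ h : Fin (2 * n), X h.val ^ (α.1 h).1.val *
          ((lawV (mapW A W) n e (fun _ => false) X Ψ h.val).1 ^ (M - (α.1 h).2.val) *
            (lawV (mapW A W) n e (fun _ => false) X Ψ h.val).2 ^ (α.1 h).2.val)) *
        ∏ i : Fin 2, X (2 * n + i.val) ^ (α.2 i).val)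
        (s * (cst v 40 * Γ) ^ (2 * M * sq n e)) := by
      intro α
      have t1 : N (algebraMap K A (c α)) s := hN.mono _ _ _ (hN.const _) (hc α)
      have t2 : N (∏ i : Fin 2, X (2 * n + i.val) ^ (α.2 i).val) 1 := by
        have h := n_prod hN Finset.univ (fun i : Fin 2 => X (2 * n + i.val) ^ (α.2 i).val)
          (fun _ => 1) (fun i _ => by
            have h1 := n_pow hN (hX (2 * n + i.val) (by have := i.isLt; omega)) (α.2 i).val
            rwa [one_pow] at h1)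
        rwa [Finset.prod_const_one] at h
      have t3 := n_prod hN Finset.univ (fun h : Fin (2 * n) => X h.val ^ (α.1 h).1.val *
          ((lawV (mapW A W) n e (fun _ => false) X Ψ h.val).1 ^ (M - (α.1 h).2.val) *
            (lawV (mapW A W) n e (fun _ => false) X Ψ h.val).2 ^ (α.1 h).2.val))
        (fun h => (cst v 40 * Γ) ^ (4 ^ e (h.val / 2) * M)) (fun h _ => by
          have h1 := n_pow hN (hX h.val (by have := h.isLt; omega)) (α.1 h).1.val
          rw [one_pow] at h1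
          obtain ⟨h2, h3⟩ := hlaw h.val h.isLt
          have h4 := hN.mul _ _ _ _ h1 (hN.mul _ _ _ _ (n_pow hN h2 (M - (α.1 h).2.val))
            (n_pow hN h3 (α.1 h).2.val))
          have hlt := (α.1 h).2.isLt
          rw [one_mul, ← pow_add, Nat.sub_add_cancel (by omega), ← pow_mul] at h4
          exact h4)
      have t4 : ∏ h : Fin (2 * n), (cst v 40 * Γ) ^ (4 ^ e (h.val / 2) * M) =
          (cst v 40 * Γ) ^ (2 * M * sq n e) := by
        rw [Finset.prod_pow_eq_pow_sum, ← Finset.sum_mul, sum_half n (fun j => 4 ^ e j)]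
        congr 1
        unfold Pool.Agent.Helper42.SG.sq
        ring
      rw [t4] at t3
      have h := hN.mul _ _ _ _ (hN.mul _ _ _ _ t1 t3) t2
      rwa [mul_one] at h
    have hT0 : 0 ≤ s * (cst v 40 * Γ) ^ (2 * M * sq n e) :=
      mul_nonneg hs (pow_nonneg (by linarith) _)
    have hsum := mb_sum hN (Finset.univ : Finset (Idx n M δ e)) _ _ hT0 (fun α _ => hterm α)
    have hP : N (P0 W n M δ e c X Ψ) (cst v ((Finset.univ : Finset (Idx n M δ e)).card : ℝ) *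
        (s * (cst v 40 * Γ) ^ (2 * M * sq n e))) := hsum
    refine hN.mono _ _ _ hP ?_
    show _ ≤ s * (cst v D * (cst v 40 * (bet (W 0) v * bet (W 1) v) ^ 2) ^ (2 * M)) ^ sq n e
    rw [← hΓ]
    have hcard : cst v ((Finset.univ : Finset (Idx n M δ e)).card : ℝ) ≤
        cst v ((D : ℝ) ^ sq n e) := by
      refine cst_mono v ?_
      rw [Finset.card_univ]
      exact_mod_cast card_idx n M δ hn e
    calc cst v ((Finset.univ : Finset (Idx n M δ e)).card : ℝ) *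
          (s * (cst v 40 * Γ) ^ (2 * M * sq n e))
        ≤ cst v ((D : ℝ) ^ sq n e) * (s * (cst v 40 * Γ) ^ (2 * M * sq n e)) :=
          mul_le_mul_of_nonneg_right hcard hT0
      _ = s * (cst v D ^ sq n e * ((cst v 40 * Γ) ^ (2 * M)) ^ sq n e) := by
          rw [cst_pow, pow_mul (cst v 40 * Γ)]; ring
      _ = s * (cst v D * (cst v 40 * Γ) ^ (2 * M)) ^ sq n e := by
          rw [mul_pow (cst v (D : ℝ)) ((cst v 40 * Γ) ^ (2 * M))]

end Pool.Agent.Helper90.SGT
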